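import Pool.Agent.U62.RB.Per
import Pool.Agent.U62.LD.Big

/-!
# Bonferroni's inequalities and elementary symmetric functions
-/

set_option autoImplicit false
set_option linter.unusedSectionVars false

namespace Pool.Agent.U62.LT

open Finset

/-- **Bonferroni's inequalities.** -/
theorem bon (N m J : ℕ) :
    |∑ i ∈ range (J + 1), (-1 : ℝ) ^ i * (((i + m).choose m : ℕ) : ℝ) * ((N.choose (i + m) : ℕ) : ℝ) - (if N = m then 1 else 0)| ≤
      (((J + 1 + m).choose m : ℕ) : ℝ) * ((N.choose (J + 1 + m) : ℕ) : ℝ) := by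
  rcases lt_trichotomy N m with h | h | h
  · rw [if_neg h.ne, sub_zero, Finset.sum_eq_zero, abs_zero]
    · positivity
    · intro i _
      rw [Nat.choose_eq_zero_of_lt (by omega : N < i + m)]
      simp
  · subst h
    rw [if_pos rfl, Finset.sum_eq_single 0]
    · simp only [pow_zero, zero_add, Nat.choose_self, Nat.cast_one, mul_one, sub_self, abs_zero]
      positivity
    · intro i _ hi
      rw [Nat.choose_eq_zero_of_lt (by omega : N < i + N)]
      simp
    · intro h'
      exact absurd (Finset.mem_range.2 (Nat.succ_pos J)) h'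
  · rw [if_neg h.ne', sub_zero]
    obtain ⟨d, hd⟩ : ∃ d, N = m + (d + 1) := ⟨N - m - 1, by omega⟩
    have e1 : ∀ i, (((i + m).choose m : ℕ) : ℝ) * ((N.choose (i + m) : ℕ) : ℝ) = ((N.choose m : ℕ) : ℝ) * (((d + 1).choose i : ℕ) : ℝ) := by
      intro i
      have h1 := Nat.choose_mul (n := N) (k := i + m) (s := m) (by omega)
      rw [show N - m = d + 1 by omega, show i + m - m = i by omega] at h1
      rw [mul_comm]
      exact_mod_cast h1
    have e2 : ∑ i ∈ range (J + 1), (-1 : ℝ) ^ i * (((i + m).choose m : ℕ) : ℝ) * ((N.choose (i + m) : ℕ) : ℝ) =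
        ((N.choose m : ℕ) : ℝ) * ((-1) ^ J * ((d.choose J : ℕ) : ℝ)) := by
      have h2 := Int.alternating_sum_range_choose_eq_choose (n := d) (m := J)
      have h3 : ∑ k ∈ range (J + 1), (-1 : ℝ) ^ k * (((d + 1).choose k : ℕ) : ℝ) = (-1) ^ J * ((d.choose J : ℕ) : ℝ) := by
        exact_mod_cast h2
      rw [← h3, Finset.mul_sum]
      refine Finset.sum_congr rfl fun i _ => ?_
      rw [mul_assoc, e1]
      ring
    rw [e2, e1, abs_mul, abs_mul, abs_pow, abs_neg, abs_one, one_pow, one_mul, Nat.abs_cast, Nat.abs_cast]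
    refine mul_le_mul_of_nonneg_left ?_ (Nat.cast_nonneg _)
    rw [Nat.choose_succ_succ]
    push_cast
    linarith [Nat.cast_nonneg (α := ℝ) (d.choose (J + 1))]

/-- The elementary symmetric functions. -/
noncomputable def es (P : Finset ℕ) (ρ : ℕ → ℝ) (k : ℕ) : ℝ := ∑ Q ∈ P.powersetCard k, ∏ p ∈ Q, ρ p

theorem es_zero (P : Finset ℕ) (ρ : ℕ → ℝ) : es P ρ 0 = 1 := by
  unfold es
  rw [Finset.powersetCard_zero, Finset.sum_singleton, Finset.prod_empty]

theorem es_empty (ρ : ℕ → ℝ) (k : ℕ) : es ∅ ρ (k + 1) = 0 := by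
  unfold es
  rw [Finset.powersetCard_eq_empty.2 (by rw [Finset.card_empty]; omega), Finset.sum_empty]

theorem es_insert {P : Finset ℕ} {a : ℕ} (ha : a ∉ P) (ρ : ℕ → ℝ) (k : ℕ) :
    es (insert a P) ρ (k + 1) = es P ρ (k + 1) + ρ a * es P ρ k := by
  unfold es
  rw [Finset.powersetCard_succ_insert ha, Finset.sum_union, Finset.sum_image, Finset.mul_sum]
  · congr 1
    refine Finset.sum_congr rfl fun Q hQ => ?_
    rw [Finset.prod_insert]
    exact fun h => ha ((Finset.mem_powersetCard.1 hQ).1 h)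
  · intro Q hQ Q' hQ' h
    have hQa : a ∉ Q := fun h => ha ((Finset.mem_powersetCard.1 hQ).1 h)
    have hQa' : a ∉ Q' := fun h => ha ((Finset.mem_powersetCard.1 hQ').1 h)
    rw [← Finset.erase_insert hQa, ← Finset.erase_insert hQa', h]
  · rw [Finset.disjoint_left]
    intro Q hQ hQ'
    rw [Finset.mem_image] at hQ'
    obtain ⟨Q', _, rfl⟩ := hQ'
    exact ha ((Finset.mem_powersetCard.1 hQ).1 (Finset.mem_insert_self a Q'))

theorem es_nonneg (P : Finset ℕ) {ρ : ℕ → ℝ} (hρ : ∀ p ∈ P, 0 ≤ ρ p) (k : ℕ) : 0 ≤ es P ρ k := by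
  unfold es
  exact Finset.sum_nonneg fun Q hQ => Finset.prod_nonneg fun p hp => hρ p ((Finset.mem_powersetCard.1 hQ).1 hp)

theorem pow_step {x a : ℝ} (hx : 0 ≤ x) (ha : 0 ≤ a) (k : ℕ) : x ^ (k + 1) + (k + 1) * a * x ^ k ≤ (x + a) ^ (k + 1) := by
  induction k with
  | zero => norm_num
  | succ k ih =>
    have h1 : 0 ≤ x ^ (k + 1) := pow_nonneg hx _
    have h2 : 0 ≤ x ^ k := pow_nonneg hx _
    calc x ^ (k + 1 + 1) + ((k + 1 : ℕ) + 1) * a * x ^ (k + 1) ≤ (x ^ (k + 1) + (k + 1) * a * x ^ k) * (x + a) := by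
          push_cast
          have e : (x ^ (k + 1) + (k + 1) * a * x ^ k) * (x + a) = x ^ (k + 1 + 1) + ((k : ℝ) + 1 + 1) * a * x ^ (k + 1) +
            (k + 1) * a ^ 2 * x ^ k := by ring
          rw [e]
          have : 0 ≤ ((k : ℝ) + 1) * a ^ 2 * x ^ k := by positivity
          linarith
      _ ≤ (x + a) ^ (k + 1) * (x + a) := mul_le_mul_of_nonneg_right ih (by positivity)
      _ = (x + a) ^ (k + 1 + 1) := by ring

theorem es_le (P : Finset ℕ) {ρ : ℕ → ℝ} (hρ : ∀ p ∈ P, 0 ≤ ρ p) (k : ℕ) :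
    es P ρ k ≤ (∑ p ∈ P, ρ p) ^ k / (k.factorial : ℝ) := by
  induction P using Finset.induction_on generalizing k with
  | empty =>
    cases k with
    | zero => rw [es_zero]; simp
    | succ k => rw [es_empty]; positivity
  | insert a P ha ih =>
    have hP : ∀ p ∈ P, 0 ≤ ρ p := fun p hp => hρ p (Finset.mem_insert_of_mem hp)
    have hs : 0 ≤ ∑ p ∈ P, ρ p := Finset.sum_nonneg hP
    have h0 := hρ a (Finset.mem_insert_self a P)
    cases k with
    | zero => rw [es_zero]; simp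
    | succ k =>
      rw [es_insert ha, Finset.sum_insert ha]
      have h1 := ih hP (k + 1)
      have h2 := mul_le_mul_of_nonneg_left (ih hP k) h0
      have h3 := pow_step hs h0 k
      have hf : (0 : ℝ) < (k.factorial : ℝ) := by exact_mod_cast Nat.factorial_pos k
      have hf' : (((k + 1).factorial : ℕ) : ℝ) = (k + 1) * (k.factorial : ℝ) := by
        rw [Nat.factorial_succ]
        push_cast
        ring
      refine (add_le_add h1 h2).trans ?_
      rw [hf', add_comm (ρ a), ← mul_div_assoc, div_add_div _ _ (by positivity) hf.ne', div_le_div_iff₀ (by positivity) (by positivity)]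
      have h4 : (∑ p ∈ P, ρ p) ^ (k + 1) * (k.factorial : ℝ) + (k + 1) * (k.factorial : ℝ) * (ρ a * (∑ p ∈ P, ρ p) ^ k) =
          (k.factorial : ℝ) * ((∑ p ∈ P, ρ p) ^ (k + 1) + (k + 1) * ρ a * (∑ p ∈ P, ρ p) ^ k) := by ring
      rw [h4]
      calc (k.factorial : ℝ) * ((∑ p ∈ P, ρ p) ^ (k + 1) + (k + 1) * ρ a * (∑ p ∈ P, ρ p) ^ k) * ((k + 1) * (k.factorial : ℝ)) ≤
          (k.factorial : ℝ) * (∑ p ∈ P, ρ p + ρ a) ^ (k + 1) * ((k + 1) * (k.factorial : ℝ)) :=
            mul_le_mul_of_nonneg_right (mul_le_mul_of_nonneg_left h3 hf.le) (by positivity)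
        _ = (∑ p ∈ P, ρ p + ρ a) ^ (k + 1) * ((k + 1) * (k.factorial : ℝ) * (k.factorial : ℝ)) := by ring

theorem pow_diff {u v : ℝ} (hv : 0 ≤ v) (huv : v ≤ u) (k : ℕ) : u ^ (k + 1) ≤ v ^ (k + 1) + (k + 1) * (u - v) * u ^ k := by
  have hu : 0 ≤ u := hv.trans huv
  induction k with
  | zero => norm_num
  | succ k ih =>
    have h1 : v ^ (k + 1) ≤ u ^ (k + 1) := pow_le_pow_left₀ hv huv _
    have h2 := mul_le_mul_of_nonneg_left ih hu
    push_cast
    have e1 : u ^ (k + 1 + 1) = u * u ^ (k + 1) := by ring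
    have e2 : u * (v ^ (k + 1) + (k + 1) * (u - v) * u ^ k) = u * v ^ (k + 1) + (k + 1) * (u - v) * u ^ (k + 1) := by ring
    rw [e1]
    refine h2.trans ?_
    rw [e2]
    have e3 : v ^ (k + 1 + 1) + ((k : ℝ) + 1 + 1) * (u - v) * u ^ (k + 1) = v * v ^ (k + 1) + (u - v) * u ^ (k + 1) +
      (k + 1) * (u - v) * u ^ (k + 1) := by ring
    rw [e3]
    have h3 : (u - v) * v ^ (k + 1) ≤ (u - v) * u ^ (k + 1) := mul_le_mul_of_nonneg_left h1 (by linarith)
    nlinarith [h3]

theorem es_ge (P : Finset ℕ) {ρ : ℕ → ℝ} {R : ℝ} (hρ : ∀ p ∈ P, 0 ≤ ρ p ∧ ρ p ≤ R) (hR : 0 ≤ R) (k : ℕ) :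
    (max 0 (∑ p ∈ P, ρ p - k * R)) ^ k / (k.factorial : ℝ) ≤ es P ρ k := by
  induction P using Finset.induction_on generalizing k with
  | empty =>
    cases k with
    | zero => rw [es_zero]; simp
    | succ k =>
      rw [es_empty, Finset.sum_empty, max_eq_left]
      · rw [zero_pow (Nat.succ_ne_zero k), zero_div]
      · have : 0 ≤ ((k + 1 : ℕ) : ℝ) * R := by positivity
        linarith
  | insert a P ha ih =>
    have hP : ∀ p ∈ P, 0 ≤ ρ p ∧ ρ p ≤ R := fun p hp => hρ p (Finset.mem_insert_of_mem hp)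
    obtain ⟨h0, h0R⟩ := hρ a (Finset.mem_insert_self a P)
    cases k with
    | zero => rw [es_zero]; simp
    | succ k =>
      rw [es_insert ha, Finset.sum_insert ha]
      have h1 := ih hP (k + 1)
      have h2 := mul_le_mul_of_nonneg_left (ih hP k) h0
      have hf : (0 : ℝ) < (k.factorial : ℝ) := by exact_mod_cast Nat.factorial_pos k
      have hf' : (((k + 1).factorial : ℕ) : ℝ) = (k + 1) * (k.factorial : ℝ) := by
        rw [Nat.factorial_succ]
        push_cast
        ring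
      refine le_trans ?_ (add_le_add h1 h2)
      obtain ⟨s, hs⟩ : ∃ s, s = ∑ p ∈ P, ρ p := ⟨_, rfl⟩
      rw [← hs, hf']
      obtain ⟨v, hv⟩ : ∃ v, v = max 0 (s - ((k + 1 : ℕ) : ℝ) * R) := ⟨_, rfl⟩
      obtain ⟨u, hu⟩ : ∃ u, u = max 0 (ρ a + s - ((k + 1 : ℕ) : ℝ) * R) := ⟨_, rfl⟩
      obtain ⟨w, hw⟩ : ∃ w, w = max 0 (s - (k : ℝ) * R) := ⟨_, rfl⟩
      rw [← hv, ← hu, ← hw]
      have hv0 : 0 ≤ v := hv ▸ le_max_left _ _
      have hu0 : 0 ≤ u := hu ▸ le_max_left _ _
      have huv : v ≤ u := by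
        rw [hv, hu]
        exact max_le_max le_rfl (by linarith)
      have huv2 : u - v ≤ ρ a := by
        have : u ≤ v + ρ a := by
          rw [hu]
          refine max_le (by linarith) ?_
          have := le_max_right 0 (s - ((k + 1 : ℕ) : ℝ) * R)
          rw [← hv] at this
          linarith
        linarith
      have huw : u ≤ w := by
        rw [hu, hw]
        refine max_le_max le_rfl ?_
        push_cast
        linarith
      have h3 := pow_diff hv0 huv k
      have h4 : (k + 1) * (u - v) * u ^ k ≤ (k + 1) * ρ a * w ^ k := by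
        have h5 : u ^ k ≤ w ^ k := pow_le_pow_left₀ hu0 huw k
        have h6 : 0 ≤ u - v := by linarith
        have h7 : 0 ≤ u ^ k := pow_nonneg hu0 k
        exact mul_le_mul (mul_le_mul_of_nonneg_left huv2 (by positivity)) h5 h7 (by positivity)
      rw [← mul_div_assoc, div_add_div _ _ (by positivity) hf.ne', div_le_div_iff₀ (by positivity) (by positivity)]
      have h5 : u ^ (k + 1) ≤ v ^ (k + 1) + (k + 1) * ρ a * w ^ k := by linarith
      calc u ^ (k + 1) * ((k + 1) * (k.factorial : ℝ) * (k.factorial : ℝ)) ≤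
          (v ^ (k + 1) + (k + 1) * ρ a * w ^ k) * ((k + 1) * (k.factorial : ℝ) * (k.factorial : ℝ)) :=
            mul_le_mul_of_nonneg_right h5 (by positivity)
        _ = (v ^ (k + 1) * (k.factorial : ℝ) + (k + 1) * (k.factorial : ℝ) * (ρ a * w ^ k)) * ((k + 1) * (k.factorial : ℝ)) := by
            ring

end Pool.Agent.U62.LT
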