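import Pool.Agent.U62.LT.Bon

/-!
# The number of the events over a box and in the independent model
-/

set_option autoImplicit false
set_option linter.unusedSectionVars false

namespace Pool.Agent.U62.LT

open Finset Filter Topology Pool.Agent.X280.BP
open Pool.Agent.Y722.HS (EM EB red)
open Pool.Agent.U62.LD (MM MM_ne cst cst_red lme lme_eq EM_prod EM_mono2 EM_sum2 EM_mul2 EM_add2 EM_one2)

variable {n : ℕ}

open Classical in
/-- The indicator of the local event. -/
noncomputable def ia (A : ∀ p : ℕ, (Fin n → ZMod p) → Prop) (p : ℕ) (x : Fin n → ZMod p) : ℝ := if A p x then 1 else 0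

/-- The local probability. -/
noncomputable def rho (A : ∀ p : ℕ, (Fin n → ZMod p) → Prop) (p : ℕ) : ℝ := lme p (ia A p)

open Classical in
/-- The number of the events. -/
noncomputable def nb (A : ∀ p : ℕ, (Fin n → ZMod p) → Prop) (P : Finset ℕ) (c : Fin n → ℤ) : ℕ := (P.filter fun p => A p (red p c)).card

open Classical in
/-- The number of the events in the independent model. -/
noncomputable def nbM (A : ∀ p : ℕ, (Fin n → ZMod p) → Prop) (P : Finset ℕ) (x : Fin n → ZMod (MM P)) : ℕ :=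
  (P.filter fun p => A p (cst P p x)).card

open Classical in
theorem choose_eq (P : Finset ℕ) (B : ℕ → Prop) (k : ℕ) :
    (((P.filter B).card.choose k : ℕ) : ℝ) = ∑ Q ∈ P.powersetCard k, ∏ p ∈ Q, (if B p then (1 : ℝ) else 0) := by
  have e1 : ∀ Q ∈ P.powersetCard k, ∏ p ∈ Q, (if B p then (1 : ℝ) else 0) = if ∀ p ∈ Q, B p then 1 else 0 := by
    intro Q _
    rw [Finset.prod_ite_zero]
    simp only [Finset.prod_const_one]
  rw [Finset.sum_congr rfl e1, ← Finset.sum_filter, Finset.sum_const, nsmul_eq_mul, mul_one, ← Finset.card_powersetCard]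
  congr 2
  ext Q
  rw [Finset.mem_powersetCard, Finset.mem_filter, Finset.mem_powersetCard]
  constructor
  · rintro ⟨h1, h2⟩
    exact ⟨⟨fun p hp => (Finset.mem_filter.1 (h1 hp)).1, h2⟩, fun p hp => (Finset.mem_filter.1 (h1 hp)).2⟩
  · rintro ⟨⟨h1, h2⟩, h3⟩
    exact ⟨fun p hp => Finset.mem_filter.2 ⟨h1 hp, h3 p hp⟩, h2⟩

open Classical in
theorem ind_eq (P : Finset ℕ) (B : ℕ → Prop) (m : ℕ) :
    (if (P.filter B).card = m then (1 : ℝ) else 0) =
      ∑ Q ∈ P.powersetCard m, ∏ p ∈ P, (if p ∈ Q then (if B p then (1 : ℝ) else 0) else 1 - (if B p then (1 : ℝ) else 0)) := by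
  have e1 : ∀ Q ∈ P.powersetCard m, ∏ p ∈ P, (if p ∈ Q then (if B p then (1 : ℝ) else 0) else 1 - (if B p then (1 : ℝ) else 0)) =
      if Q = P.filter B then 1 else 0 := by
    intro Q hQ
    have h1 : ∀ p ∈ P, (if p ∈ Q then (if B p then (1 : ℝ) else 0) else 1 - (if B p then (1 : ℝ) else 0)) =
        if (p ∈ Q ↔ B p) then 1 else 0 := by
      intro p _
      by_cases h2 : p ∈ Q <;> by_cases h3 : B p <;> simp [h2, h3]
    rw [Finset.prod_congr rfl h1, Finset.prod_ite_zero]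
    simp only [Finset.prod_const_one]
    congr 1
    refine propext ⟨fun h => ?_, fun h => ?_⟩
    · ext p
      rw [Finset.mem_filter]
      constructor
      · intro hp
        have hpP := (Finset.mem_powersetCard.1 hQ).1 hp
        exact ⟨hpP, (h p hpP).1 hp⟩
      · rintro ⟨h2, h3⟩
        exact (h p h2).2 h3
    · intro p hp
      rw [h, Finset.mem_filter]
      exact ⟨fun h' => h'.2, fun h' => ⟨hp, h'⟩⟩
  rw [Finset.sum_congr rfl e1, Finset.sum_ite_eq']
  congr 1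
  rw [Finset.mem_powersetCard]
  exact propext ⟨fun h => ⟨Finset.filter_subset _ _, h⟩, fun h => h.2⟩

theorem ia_01 (A : ∀ p : ℕ, (Fin n → ZMod p) → Prop) (p : ℕ) (x : Fin n → ZMod p) : 0 ≤ ia A p x ∧ ia A p x ≤ 1 := by
  unfold ia
  split_ifs <;> norm_num

theorem rho_nonneg (A : ∀ p : ℕ, (Fin n → ZMod p) → Prop) (p : ℕ) : 0 ≤ rho A p := by
  unfold rho lme
  split_ifs with h
  · exact le_rfl
  · haveI : NeZero p := ⟨h⟩
    unfold EM
    exact div_nonneg (Finset.sum_nonneg fun x _ => (ia_01 A p x).1) (by positivity)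

theorem EB_close {Q : Finset ℕ} (hQ : ∀ p ∈ Q, p.Prime) (A : ∀ p : ℕ, (Fin n → ZMod p) → Prop) (H : ℕ) (hH : MM Q ≤ 2 * H + 1) :
    |EB H (fun c => ∏ p ∈ Q, ia A p (red p c)) - ∏ p ∈ Q, rho A p| ≤ 2 ^ n * ((MM Q : ℝ) / (2 * H + 1)) * ∏ p ∈ Q, rho A p := by
  have hne : NeZero (MM Q) := ⟨MM_ne hQ⟩
  have h := EB_one_mod H (MM Q) hH (fun x : Fin n → ZMod (MM Q) => ∏ p ∈ Q, ia A p (cst Q p x))
  have e1 : (fun c : Fin n → ℤ => ∏ p ∈ Q, ia A p (cst Q p (red (MM Q) c))) = fun c => ∏ p ∈ Q, ia A p (red p c) := by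
    funext c
    exact Finset.prod_congr rfl fun p hp => by rw [cst_red hp]
  have e2 : (fun x : Fin n → ZMod (MM Q) => |∏ p ∈ Q, ia A p (cst Q p x)|) = fun x => ∏ p ∈ Q, ia A p (cst Q p x) := by
    funext x
    exact abs_of_nonneg (Finset.prod_nonneg fun p _ => (ia_01 A p _).1)
  have e3 : EM (MM Q) (fun x : Fin n → ZMod (MM Q) => ∏ p ∈ Q, ia A p (cst Q p x)) = ∏ p ∈ Q, rho A p := EM_prod hQ (ia A)
  rw [e1, e2, e3, Fintype.card_fin] at h
  exact h

theorem F_close {P : Finset ℕ} {y : ℕ} (hP : ∀ p ∈ P, p.Prime ∧ p ≤ y) (A : ∀ p : ℕ, (Fin n → ZMod p) → Prop) (k H : ℕ)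
    (hH : y ^ k ≤ 2 * H + 1) :
    |EB H (fun c => (((nb A P c).choose k : ℕ) : ℝ)) - es P (rho A) k| ≤ 2 ^ n * ((y : ℝ) ^ k / (2 * H + 1)) * es P (rho A) k := by
  classical
  have e1 : (fun c : Fin n → ℤ => (((nb A P c).choose k : ℕ) : ℝ)) =
      fun c => ∑ Q ∈ P.powersetCard k, ∏ p ∈ Q, ia A p (red p c) := by
    funext c
    unfold nb ia
    exact choose_eq P (fun p => A p (red p c)) k
  unfold es
  rw [e1, EB_sum, ← Finset.sum_sub_distrib, Finset.mul_sum]
  refine (Finset.abs_sum_le_sum_abs _ _).trans (Finset.sum_le_sum fun Q hQ => ?_)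
  obtain ⟨hQP, hQk⟩ := Finset.mem_powersetCard.1 hQ
  have hpr : ∀ p ∈ Q, p.Prime := fun p hp => (hP p (hQP hp)).1
  have hM : MM Q ≤ y ^ k := by
    unfold MM
    rw [← hQk]
    exact Finset.prod_le_pow_card _ _ _ fun p hp => (hP p (hQP hp)).2
  refine (EB_close hpr A H (hM.trans hH)).trans ?_
  refine mul_le_mul_of_nonneg_right ?_ (Finset.prod_nonneg fun p _ => rho_nonneg A p)
  refine mul_le_mul_of_nonneg_left ?_ (by positivity)
  refine div_le_div_of_nonneg_right ?_ (by positivity)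
  exact_mod_cast hM

theorem FM_eq {P : Finset ℕ} (hP : ∀ p ∈ P, p.Prime) [NeZero (MM P)] (A : ∀ p : ℕ, (Fin n → ZMod p) → Prop) (k : ℕ) :
    EM (MM P) (fun x : Fin n → ZMod (MM P) => (((nbM A P x).choose k : ℕ) : ℝ)) = es P (rho A) k := by
  classical
  have e1 : (fun x : Fin n → ZMod (MM P) => (((nbM A P x).choose k : ℕ) : ℝ)) =
      fun x => ∑ Q ∈ P.powersetCard k, ∏ p ∈ Q, ia A p (cst P p x) := by
    funext x
    unfold nbM ia
    exact choose_eq P (fun p => A p (cst P p x)) k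
  unfold es
  rw [e1, EM_sum2]
  refine Finset.sum_congr rfl fun Q hQ => ?_
  obtain ⟨hQP, hQk⟩ := Finset.mem_powersetCard.1 hQ
  have h := EM_prod hP (fun p => if p ∈ Q then ia A p else fun _ : Fin n → ZMod p => (1 : ℝ))
  have e2 : ∀ F : ℕ → ℝ, ∏ p ∈ Q, F p = ∏ p ∈ P, if p ∈ Q then F p else 1 := by
    intro F
    rw [Finset.prod_ite_mem, Finset.inter_eq_right.2 hQP]
  have e3 : (fun x : Fin n → ZMod (MM P) => ∏ p ∈ Q, ia A p (cst P p x)) =
      fun x => ∏ p ∈ P, (if p ∈ Q then ia A p else fun _ : Fin n → ZMod p => (1 : ℝ)) (cst P p x) := by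
    funext x
    rw [e2]
    refine Finset.prod_congr rfl fun p _ => ?_
    split_ifs <;> rfl
  rw [e3, h, e2 (rho A)]
  refine Finset.prod_congr rfl fun p hp => ?_
  split_ifs
  · rfl
  · haveI : NeZero p := ⟨(hP p hp).ne_zero⟩
    rw [lme_eq]
    exact EM_one2 p

/-- The probability in the independent model. -/
noncomputable def pb (P : Finset ℕ) (ρ : ℕ → ℝ) (m : ℕ) : ℝ :=
  ∑ Q ∈ P.powersetCard m, ∏ p ∈ P, (open Classical in if p ∈ Q then ρ p else 1 - ρ p)

theorem PB_eq {P : Finset ℕ} (hP : ∀ p ∈ P, p.Prime) [NeZero (MM P)] (A : ∀ p : ℕ, (Fin n → ZMod p) → Prop) (m : ℕ) :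
    EM (MM P) (fun x : Fin n → ZMod (MM P) => if nbM A P x = m then (1 : ℝ) else 0) = pb P (rho A) m := by
  classical
  have e1 : (fun x : Fin n → ZMod (MM P) => if nbM A P x = m then (1 : ℝ) else 0) =
      fun x => ∑ Q ∈ P.powersetCard m, ∏ p ∈ P, (if p ∈ Q then ia A p else fun y => 1 - ia A p y) (cst P p x) := by
    funext x
    have h := ind_eq P (fun p => A p (cst P p x)) m
    unfold nbM
    refine Eq.trans ?_ (h.trans ?_)
    · congr
    · refine Finset.sum_congr rfl fun Q _ => Finset.prod_congr rfl fun p _ => ?_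
      unfold ia
      by_cases h2 : p ∈ Q
      · rw [if_pos h2, if_pos h2]
      · rw [if_neg h2, if_neg h2]
  unfold pb
  rw [e1, EM_sum2]
  refine Finset.sum_congr rfl fun Q _ => ?_
  rw [EM_prod hP (fun p => if p ∈ Q then ia A p else fun y => 1 - ia A p y)]
  refine Finset.prod_congr rfl fun p hp => ?_
  haveI : NeZero p := ⟨(hP p hp).ne_zero⟩
  by_cases h2 : p ∈ Q
  · rw [if_pos h2, if_pos h2]
    rfl
  · rw [if_neg h2, if_neg h2]
    unfold rho
    rw [lme_eq, lme_eq, EM_sub', EM_one2]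

end Pool.Agent.U62.LT
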