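import Pool.Agent.U62.LT.Cmp

/-!
# The law of the number of the events
-/

set_option autoImplicit false
set_option linter.unusedSectionVars false

namespace Pool.Agent.U62.LT

open Finset Filter Topology Pool.Agent.X280.BP
open Pool.Agent.Y722.HS (EM EB red)
open Pool.Agent.U62.LD (MM MM_ne cst cst_red lme lme_eq EM_prod EM_mono2 EM_sum2 EM_mul2 EM_add2 EM_one2)

variable {n : ℕ}

theorem EB_near (H : ℕ) (f g b : (Fin n → ℤ) → ℝ) (h : ∀ c, |f c - g c| ≤ b c) : |EB H f - EB H g| ≤ EB H b := by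
  rw [abs_le, ← EB_sub]
  constructor
  · have h1 := EB_mono H (fun c => (-1) * b c) (fun c => f c - g c) fun c => by
      have := (abs_le.1 (h c)).1
      linarith
    rw [EB_mul_left] at h1
    linarith
  · exact EB_mono H _ _ fun c => (abs_le.1 (h c)).2

theorem EM_near (M : ℕ) [NeZero M] (f g b : (Fin n → ZMod M) → ℝ) (h : ∀ c, |f c - g c| ≤ b c) : |EM M f - EM M g| ≤ EM M b := by
  rw [abs_le, ← EM_sub']
  constructor
  · have h1 := EM_mono2 M (fun c => (-1) * b c) (fun c => f c - g c) fun c => by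
      have := (abs_le.1 (h c)).1
      linarith
    rw [EM_mul2] at h1
    linarith
  · exact EM_mono2 M _ _ fun c => (abs_le.1 (h c)).2

theorem binom_es {P : Finset ℕ} {ρ : ℕ → ℝ} (hρ : ∀ p ∈ P, 0 ≤ ρ p) (m i : ℕ) :
    (((i + m).choose m : ℕ) : ℝ) * es P ρ (i + m) ≤
      (∑ p ∈ P, ρ p) ^ m / (m.factorial : ℝ) * ((∑ p ∈ P, ρ p) ^ i / (i.factorial : ℝ)) := by
  have hs : 0 ≤ ∑ p ∈ P, ρ p := Finset.sum_nonneg hρ
  have h1 := mul_le_mul_of_nonneg_left (es_le P hρ (i + m)) (Nat.cast_nonneg (α := ℝ) ((i + m).choose m))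
  refine h1.trans (le_of_eq ?_)
  have h2 := Nat.add_choose_mul_factorial_mul_factorial i m
  have h3 : (((i + m).choose m : ℕ) : ℝ) * (i.factorial : ℝ) * (m.factorial : ℝ) = (((i + m).factorial : ℕ) : ℝ) := by
    exact_mod_cast h2
  have hi : (0 : ℝ) < (i.factorial : ℝ) := by exact_mod_cast Nat.factorial_pos i
  have hm : (0 : ℝ) < (m.factorial : ℝ) := by exact_mod_cast Nat.factorial_pos m
  have him : (0 : ℝ) < (((i + m).factorial : ℕ) : ℝ) := by exact_mod_cast Nat.factorial_pos (i + m)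
  rw [div_mul_div_comm, ← mul_div_assoc, div_eq_div_iff him.ne' (by positivity), ← h3]
  ring

theorem law_close {P : Finset ℕ} {y : ℕ} (hy : 1 ≤ y) (hP : ∀ p ∈ P, p.Prime ∧ p ≤ y) (A : ∀ p : ℕ, (Fin n → ZMod p) → Prop)
    (m J H : ℕ) (hH : 2 ^ n * y ^ (J + 1 + m) ≤ 2 * H + 1) :
    |EB H (fun c => if nb A P c = m then (1 : ℝ) else 0) - pb P (rho A) m| ≤
      (∑ p ∈ P, rho A p) ^ m / (m.factorial : ℝ) * (2 ^ n * (y : ℝ) ^ (J + 1 + m) / (2 * H + 1) * Real.exp (∑ p ∈ P, rho A p) +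
        3 * ((∑ p ∈ P, rho A p) ^ (J + 1) / ((J + 1).factorial : ℝ))) := by
  have hpr : ∀ p ∈ P, p.Prime := fun p hp => (hP p hp).1
  have hne : NeZero (MM P) := ⟨MM_ne hpr⟩
  have hρ : ∀ p ∈ P, 0 ≤ rho A p := fun p _ => rho_nonneg A p
  obtain ⟨μ, hμ⟩ : ∃ μ, μ = ∑ p ∈ P, rho A p := ⟨_, rfl⟩
  have hμ0 : 0 ≤ μ := hμ ▸ Finset.sum_nonneg hρ
  obtain ⟨θ, hθ⟩ : ∃ θ : ℝ, θ = 2 ^ n * (y : ℝ) ^ (J + 1 + m) / (2 * H + 1) := ⟨_, rfl⟩
  have hH0 : (0 : ℝ) < 2 * H + 1 := by positivity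
  have hθ0 : 0 ≤ θ := by rw [hθ]; positivity
  have hθ1 : θ ≤ 1 := by
    rw [hθ, div_le_one hH0]
    exact_mod_cast hH
  have hy1 : (1 : ℝ) ≤ y := by exact_mod_cast hy
  have hF : ∀ k, k ≤ J + 1 + m → |EB H (fun c => (((nb A P c).choose k : ℕ) : ℝ)) - es P (rho A) k| ≤ θ * es P (rho A) k := by
    intro k hk
    have hyk : y ^ k ≤ y ^ (J + 1 + m) := Nat.pow_le_pow_right hy hk
    have h2n : 1 ≤ 2 ^ n := Nat.one_le_two_pow
    refine (F_close hP A k H (hyk.trans ((Nat.le_mul_of_pos_left _ (by omega)).trans hH))).trans ?_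
    refine mul_le_mul_of_nonneg_right ?_ (es_nonneg P hρ k)
    rw [hθ, ← mul_div_assoc]
    refine div_le_div_of_nonneg_right ?_ hH0.le
    exact mul_le_mul_of_nonneg_left (pow_le_pow_right₀ hy1 hk) (by positivity)
  have h1 : |EB H (fun c => if nb A P c = m then (1 : ℝ) else 0) -
      ∑ i ∈ range (J + 1), (-1 : ℝ) ^ i * (((i + m).choose m : ℕ) : ℝ) * EB H (fun c => (((nb A P c).choose (i + m) : ℕ) : ℝ))| ≤
      (((J + 1 + m).choose m : ℕ) : ℝ) * EB H (fun c => (((nb A P c).choose (J + 1 + m) : ℕ) : ℝ)) := by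
    have h := EB_near H (fun c => if nb A P c = m then (1 : ℝ) else 0)
      (fun c => ∑ i ∈ range (J + 1), (-1 : ℝ) ^ i * (((i + m).choose m : ℕ) : ℝ) * (((nb A P c).choose (i + m) : ℕ) : ℝ))
      (fun c => (((J + 1 + m).choose m : ℕ) : ℝ) * (((nb A P c).choose (J + 1 + m) : ℕ) : ℝ)) (fun c => by
        rw [abs_sub_comm]
        exact bon (nb A P c) m J)
    rw [EB_sum, EB_mul_left] at h
    simp only [EB_mul_left] at h
    exact h
  have h2 : |EM (MM P) (fun x : Fin n → ZMod (MM P) => if nbM A P x = m then (1 : ℝ) else 0) -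
      ∑ i ∈ range (J + 1), (-1 : ℝ) ^ i * (((i + m).choose m : ℕ) : ℝ) * es P (rho A) (i + m)| ≤
      (((J + 1 + m).choose m : ℕ) : ℝ) * es P (rho A) (J + 1 + m) := by
    have h := EM_near (MM P) (fun x : Fin n → ZMod (MM P) => if nbM A P x = m then (1 : ℝ) else 0)
      (fun x => ∑ i ∈ range (J + 1), (-1 : ℝ) ^ i * (((i + m).choose m : ℕ) : ℝ) * (((nbM A P x).choose (i + m) : ℕ) : ℝ))
      (fun x => (((J + 1 + m).choose m : ℕ) : ℝ) * (((nbM A P x).choose (J + 1 + m) : ℕ) : ℝ)) (fun x => by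
        rw [abs_sub_comm]
        exact bon (nbM A P x) m J)
    rw [EM_sum2, EM_mul2] at h
    simp only [EM_mul2, FM_eq hpr] at h
    exact h
  rw [PB_eq hpr] at h2
  have h3 : |∑ i ∈ range (J + 1), (-1 : ℝ) ^ i * (((i + m).choose m : ℕ) : ℝ) * EB H (fun c => (((nb A P c).choose (i + m) : ℕ) : ℝ)) -
      ∑ i ∈ range (J + 1), (-1 : ℝ) ^ i * (((i + m).choose m : ℕ) : ℝ) * es P (rho A) (i + m)| ≤
      θ * ∑ i ∈ range (J + 1), (((i + m).choose m : ℕ) : ℝ) * es P (rho A) (i + m) := by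
    rw [← Finset.sum_sub_distrib, Finset.mul_sum]
    refine (Finset.abs_sum_le_sum_abs _ _).trans (Finset.sum_le_sum fun i hi => ?_)
    rw [← mul_sub, abs_mul, abs_mul, abs_pow, abs_neg, abs_one, one_pow, one_mul, Nat.abs_cast]
    have h := mul_le_mul_of_nonneg_left (hF (i + m) (by have := Finset.mem_range.1 hi; omega))
      (Nat.cast_nonneg (α := ℝ) ((i + m).choose m))
    refine h.trans (le_of_eq ?_)
    ring
  have h4 : ∑ i ∈ range (J + 1), (((i + m).choose m : ℕ) : ℝ) * es P (rho A) (i + m) ≤ μ ^ m / (m.factorial : ℝ) * Real.exp μ := by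
    refine (Finset.sum_le_sum fun i _ => binom_es hρ m i).trans ?_
    rw [← hμ, ← Finset.mul_sum]
    exact mul_le_mul_of_nonneg_left (Real.sum_le_exp_of_nonneg hμ0 _) (by positivity)
  have h5 := binom_es (P := P) hρ m (J + 1)
  rw [← hμ] at h5
  have h6 : (((J + 1 + m).choose m : ℕ) : ℝ) * EB H (fun c => (((nb A P c).choose (J + 1 + m) : ℕ) : ℝ)) ≤
      2 * ((((J + 1 + m).choose m : ℕ) : ℝ) * es P (rho A) (J + 1 + m)) := by
    have h := (abs_le.1 (hF (J + 1 + m) le_rfl)).2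
    have h' : EB H (fun c => (((nb A P c).choose (J + 1 + m) : ℕ) : ℝ)) ≤ 2 * es P (rho A) (J + 1 + m) := by
      have h0 := es_nonneg P hρ (J + 1 + m)
      nlinarith
    have := mul_le_mul_of_nonneg_left h' (Nat.cast_nonneg (α := ℝ) ((J + 1 + m).choose m))
    linarith
  rw [← hμ, ← hθ]
  have h7 : θ * ∑ i ∈ range (J + 1), (((i + m).choose m : ℕ) : ℝ) * es P (rho A) (i + m) ≤
      θ * (μ ^ m / (m.factorial : ℝ) * Real.exp μ) := mul_le_mul_of_nonneg_left h4 hθ0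
  rw [abs_le] at h1 h2 h3 ⊢
  have e : μ ^ m / (m.factorial : ℝ) * (θ * Real.exp μ + 3 * (μ ^ (J + 1) / ((J + 1).factorial : ℝ))) =
      θ * (μ ^ m / (m.factorial : ℝ) * Real.exp μ) + 3 * (μ ^ m / (m.factorial : ℝ) * (μ ^ (J + 1) / ((J + 1).factorial : ℝ))) := by
    ring
  rw [e]
  constructor <;> linarith [h1.1, h1.2, h2.1, h2.2, h3.1, h3.2]

theorem one_sub_ge {x R : ℝ} (h0 : 0 ≤ x) (hx : x ≤ R) (hR : R ≤ 1 / 2) : Real.exp (-(x * (1 + 2 * R))) ≤ 1 - x := by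
  have h1 : 0 < 1 - x := by linarith
  have h2 := Real.add_one_le_exp (x / (1 - x))
  have h3 : 1 / (1 - x) ≤ Real.exp (x / (1 - x)) := by
    refine le_trans (le_of_eq ?_) h2
    field_simp
    ring
  have h4 : x / (1 - x) ≤ x * (1 + 2 * R) := by
    rw [div_le_iff₀ h1]
    have : 1 ≤ (1 + 2 * R) * (1 - x) := by nlinarith
    calc x = x * 1 := (mul_one x).symm
      _ ≤ x * ((1 + 2 * R) * (1 - x)) := mul_le_mul_of_nonneg_left this h0
      _ = x * (1 + 2 * R) * (1 - x) := by ring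
  have h5 : 1 / (1 - x) ≤ Real.exp (x * (1 + 2 * R)) := h3.trans (Real.exp_le_exp.2 h4)
  rw [Real.exp_neg, inv_le_comm₀ (Real.exp_pos _) h1, ← one_div]
  exact h5

/-- The bounds for the probabilities in the independent model. -/
theorem pb_bounds {P : Finset ℕ} {ρ : ℕ → ℝ} {R : ℝ} (hρ : ∀ p ∈ P, 0 ≤ ρ p ∧ ρ p ≤ R) (hR0 : 0 ≤ R) (hR : R ≤ 1 / 2) (m : ℕ) :
    (max 0 (∑ p ∈ P, ρ p - m * R)) ^ m / (m.factorial : ℝ) * Real.exp (-((∑ p ∈ P, ρ p) * (1 + 2 * R))) ≤ pb P ρ m ∧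
    pb P ρ m ≤ (∑ p ∈ P, ρ p) ^ m / (m.factorial : ℝ) * Real.exp (-(∑ p ∈ P, ρ p) + m * R) := by
  classical
  have hρ0 : ∀ p ∈ P, 0 ≤ ρ p := fun p hp => (hρ p hp).1
  have hprod : ∀ Q ∈ P.powersetCard m, ∏ p ∈ P, (if p ∈ Q then ρ p else 1 - ρ p) = (∏ p ∈ Q, ρ p) * ∏ p ∈ P \ Q, (1 - ρ p) := by
    intro Q hQ
    have hQP := (Finset.mem_powersetCard.1 hQ).1
    rw [Finset.prod_ite, Finset.filter_mem_eq_inter, Finset.inter_eq_right.2 hQP]
    congr 1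
    refine Finset.prod_congr ?_ fun _ _ => rfl
    ext p
    rw [Finset.mem_filter, Finset.mem_sdiff]
  have hlow : ∀ Q ∈ P.powersetCard m, Real.exp (-((∑ p ∈ P, ρ p) * (1 + 2 * R))) ≤ ∏ p ∈ P \ Q, (1 - ρ p) := by
    intro Q _
    calc Real.exp (-((∑ p ∈ P, ρ p) * (1 + 2 * R))) ≤ Real.exp (∑ p ∈ P \ Q, -(ρ p * (1 + 2 * R))) := by
          rw [Real.exp_le_exp, Finset.sum_neg_distrib, ← Finset.sum_mul]
          have h1 : ∑ p ∈ P \ Q, ρ p ≤ ∑ p ∈ P, ρ p :=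
            Finset.sum_le_sum_of_subset_of_nonneg Finset.sdiff_subset fun p hp _ => hρ0 p hp
          have := mul_le_mul_of_nonneg_right h1 (by positivity : (0 : ℝ) ≤ 1 + 2 * R)
          linarith
      _ = ∏ p ∈ P \ Q, Real.exp (-(ρ p * (1 + 2 * R))) := Real.exp_sum _ _
      _ ≤ ∏ p ∈ P \ Q, (1 - ρ p) := Finset.prod_le_prod (fun _ _ => (Real.exp_pos _).le) fun p hp => by
          obtain ⟨h1, h2⟩ := hρ p (Finset.mem_sdiff.1 hp).1
          exact one_sub_ge h1 h2 hR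
  have hup : ∀ Q ∈ P.powersetCard m, ∏ p ∈ P \ Q, (1 - ρ p) ≤ Real.exp (-(∑ p ∈ P, ρ p) + m * R) := by
    intro Q hQ
    obtain ⟨hQP, hQm⟩ := Finset.mem_powersetCard.1 hQ
    calc ∏ p ∈ P \ Q, (1 - ρ p) ≤ ∏ p ∈ P \ Q, Real.exp (-ρ p) := Finset.prod_le_prod (fun p hp => by
          have := (hρ p (Finset.mem_sdiff.1 hp).1).2
          linarith) fun p _ => Real.one_sub_le_exp_neg _
      _ = Real.exp (∑ p ∈ P \ Q, -ρ p) := (Real.exp_sum _ _).symm
      _ ≤ Real.exp (-(∑ p ∈ P, ρ p) + m * R) := by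
          rw [Real.exp_le_exp, Finset.sum_neg_distrib]
          have h1 : ∑ p ∈ P \ Q, ρ p + ∑ p ∈ Q, ρ p = ∑ p ∈ P, ρ p := Finset.sum_sdiff hQP
          have h2 : ∑ p ∈ Q, ρ p ≤ m * R := by
            calc ∑ p ∈ Q, ρ p ≤ ∑ _p ∈ Q, R := Finset.sum_le_sum fun p hp => (hρ p (hQP hp)).2
              _ = m * R := by rw [Finset.sum_const, nsmul_eq_mul, hQm]
          linarith
  have hpos : ∀ Q ∈ P.powersetCard m, 0 ≤ ∏ p ∈ Q, ρ p := fun Q hQ =>
    Finset.prod_nonneg fun p hp => hρ0 p ((Finset.mem_powersetCard.1 hQ).1 hp)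
  have epb : pb P ρ m = ∑ Q ∈ P.powersetCard m, (∏ p ∈ Q, ρ p) * ∏ p ∈ P \ Q, (1 - ρ p) := by
    unfold pb
    refine Finset.sum_congr rfl fun Q hQ => ?_
    rw [← hprod Q hQ]
  constructor
  · calc (max 0 (∑ p ∈ P, ρ p - m * R)) ^ m / (m.factorial : ℝ) * Real.exp (-((∑ p ∈ P, ρ p) * (1 + 2 * R))) ≤
        es P ρ m * Real.exp (-((∑ p ∈ P, ρ p) * (1 + 2 * R))) :=
          mul_le_mul_of_nonneg_right (es_ge P hρ hR0 m) (Real.exp_pos _).le
      _ ≤ pb P ρ m := by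
          rw [epb]
          unfold es
          rw [Finset.sum_mul]
          exact Finset.sum_le_sum fun Q hQ => mul_le_mul_of_nonneg_left (hlow Q hQ) (hpos Q hQ)
  · calc pb P ρ m ≤ es P ρ m * Real.exp (-(∑ p ∈ P, ρ p) + m * R) := by
          rw [epb]
          unfold es
          rw [Finset.sum_mul]
          exact Finset.sum_le_sum fun Q hQ => mul_le_mul_of_nonneg_left (hup Q hQ) (hpos Q hQ)
      _ ≤ _ := mul_le_mul_of_nonneg_right (es_le P hρ0 m) (Real.exp_pos _).le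

end Pool.Agent.U62.LT
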