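import Pool.Agent.U62.LT.Tail

/-!
# Large deviations of the number of the primes with a periodic property
-/

set_option autoImplicit false
set_option linter.unusedSectionVars false

namespace Pool.Agent.U62.LT

open Finset Filter Topology Pool.Agent.X280.BP
open Pool.Agent.Y722.HS (EM EB red)
open Pool.Agent.U62.RB (prop dens Per ev ev_red pr_ev prop_eq pr_eq)
open Pool.Agent.U62.LD (lme_eq)

variable {n : ℕ}

theorem rho_ev (R : ℕ → (Fin n → ℤ) → Prop) {p : ℕ} (hp : p.Prime) : rho (ev R) p = dens (R p) p := by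
  have : NeZero p := ⟨hp.ne_zero⟩
  rw [← pr_ev, pr_eq]
  unfold rho
  rw [lme_eq]
  rfl

open Classical in
theorem nb_ev {R : ℕ → (Fin n → ℤ) → Prop} {P : Finset ℕ} (hP : ∀ p ∈ P, p.Prime) (hper : ∀ p ∈ P, Per (R p) p) (c : Fin n → ℤ) :
    nb (ev R) P c = (P.filter fun p => R p c).card := by
  unfold nb
  congr 1
  refine Finset.filter_congr fun p hp => ?_
  have : NeZero p := ⟨(hP p hp).ne_zero⟩
  exact ev_red (hper p hp) c

open Classical in
/-- **Large deviations for periodic properties.** -/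
theorem tails_per (n : ℕ) (t : ℝ) (ht : 0 ≤ t) {ε : ℝ} (hε : 0 < ε) : ∃ K : ℕ,
    ∀ (R : ℕ → (Fin n → ℤ) → Prop) (P : Finset ℕ) (y H l : ℕ), (∀ p ∈ P, p.Prime ∧ p ≤ y) → (∀ p ∈ P, Per (R p) p) →
    (∀ p ∈ P, K * dens (R p) p ≤ 1) → (K : ℝ) ≤ ∑ p ∈ P, dens (R p) p → ∑ p ∈ P, dens (R p) p ≤ l → y ^ (K * l) ≤ H →
    (1 ≤ t →
      Real.exp (-((t * Real.log t - t + 1 + ε) * ∑ p ∈ P, dens (R p) p)) ≤
        prop H (fun c => t * ∑ p ∈ P, dens (R p) p ≤ ((P.filter fun p => R p c).card : ℝ)) ∧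
      prop H (fun c => t * ∑ p ∈ P, dens (R p) p ≤ ((P.filter fun p => R p c).card : ℝ)) ≤
        Real.exp (-((t * Real.log t - t + 1 - ε) * ∑ p ∈ P, dens (R p) p))) ∧
    (t ≤ 1 →
      Real.exp (-((t * Real.log t - t + 1 + ε) * ∑ p ∈ P, dens (R p) p)) ≤
        prop H (fun c => ((P.filter fun p => R p c).card : ℝ) ≤ t * ∑ p ∈ P, dens (R p) p) ∧
      prop H (fun c => ((P.filter fun p => R p c).card : ℝ) ≤ t * ∑ p ∈ P, dens (R p) p) ≤
        Real.exp (-((t * Real.log t - t + 1 - ε) * ∑ p ∈ P, dens (R p) p))) := by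
  obtain ⟨K, hK⟩ := tails n t ht hε
  refine ⟨K, fun R P y H l hP hper hd hμK hμl hH => ?_⟩
  have hpr : ∀ p ∈ P, p.Prime := fun p hp => (hP p hp).1
  have e : ∑ p ∈ P, rho (ev R) p = ∑ p ∈ P, dens (R p) p := Finset.sum_congr rfl fun p hp => rho_ev R (hpr p hp)
  have h := hK (ev R) P y H l hP (fun p hp => by rw [rho_ev R (hpr p hp)]; exact hd p hp) (by rw [e]; exact hμK)
    (by rw [e]; exact hμl) hH
  rw [e] at h
  simp only [nb_ev hpr hper] at h
  rw [prop_eq, prop_eq]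
  convert h

end Pool.Agent.U62.LT
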