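import Pool.Agent.U62.LT.Law

/-!
# The exponents of the large deviations
-/

set_option autoImplicit false
set_option linter.unusedSectionVars false

namespace Pool.Agent.U62.LT

open Finset Filter Topology Pool.Agent.X280.BP
open Pool.Agent.Y722.HS (EM EB red)

variable {n : ℕ}

theorem pow_fact_le {μ : ℝ} {l : ℕ} (hμ : 0 ≤ μ) (hl : μ ≤ l) (hl1 : 1 ≤ l) :
    μ ^ (21 * l) / ((21 * l).factorial : ℝ) ≤ Real.exp (-(42 * l)) := by
  have hl0 : (0 : ℝ) < l := by exact_mod_cast hl1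
  have hL0 : (0 : ℝ) < ((21 * l : ℕ) : ℝ) := by
    push_cast
    positivity
  have h1 := Real.pow_div_factorial_le_exp (((21 * l : ℕ) : ℝ)) hL0.le (21 * l)
  have h2 : μ ^ (21 * l) ≤ (1 / 21) ^ (21 * l) * (((21 * l : ℕ) : ℝ)) ^ (21 * l) := by
    rw [← mul_pow]
    refine pow_le_pow_left₀ hμ ?_ _
    push_cast
    linarith
  have hf : (0 : ℝ) < ((21 * l).factorial : ℝ) := by exact_mod_cast Nat.factorial_pos _
  calc μ ^ (21 * l) / ((21 * l).factorial : ℝ) ≤ (1 / 21) ^ (21 * l) * (((21 * l : ℕ) : ℝ)) ^ (21 * l) / ((21 * l).factorial : ℝ) :=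
        div_le_div_of_nonneg_right h2 hf.le
    _ = (1 / 21) ^ (21 * l) * ((((21 * l : ℕ) : ℝ)) ^ (21 * l) / ((21 * l).factorial : ℝ)) := by rw [mul_div_assoc]
    _ ≤ (1 / 21) ^ (21 * l) * Real.exp (((21 * l : ℕ) : ℝ)) := mul_le_mul_of_nonneg_left h1 (by positivity)
    _ ≤ (Real.exp (-3)) ^ (21 * l) * Real.exp (((21 * l : ℕ) : ℝ)) := by
        refine mul_le_mul_of_nonneg_right (pow_le_pow_left₀ (by norm_num) ?_ _) (Real.exp_pos _).le
        rw [Real.exp_neg, one_div]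
        refine inv_anti₀ (Real.exp_pos _) ?_
        have h3 : Real.exp 3 = Real.exp 1 ^ 3 := by
          rw [← Real.exp_nat_mul]
          norm_num
        rw [h3]
        have h4 := Real.exp_one_lt_d9
        have h5 : Real.exp 1 ^ 3 ≤ (2.7182818286 : ℝ) ^ 3 := pow_le_pow_left₀ (Real.exp_pos _).le h4.le 3
        refine h5.trans ?_
        norm_num
    _ = Real.exp (-(42 * l)) := by
        rw [← Real.exp_nat_mul, ← Real.exp_add]
        congr 1
        push_cast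
        ring

theorem two_pow_le (l : ℕ) : Real.exp (6 * l) ≤ (2 : ℝ) ^ (10 * l) := by
  have h1 : Real.exp 6 ≤ 1024 := by
    have h3 : Real.exp 6 = Real.exp 1 ^ 6 := by
      rw [← Real.exp_nat_mul]
      norm_num
    rw [h3]
    have h4 := Real.exp_one_lt_d9
    have h5 : Real.exp 1 ^ 6 ≤ (2.7182818286 : ℝ) ^ 6 := pow_le_pow_left₀ (Real.exp_pos _).le h4.le 6
    refine h5.trans ?_
    norm_num
  calc Real.exp (6 * l) = Real.exp 6 ^ l := by
        rw [← Real.exp_nat_mul]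
        congr 1
        ring
    _ ≤ 1024 ^ l := pow_le_pow_left₀ (Real.exp_pos _).le h1 l
    _ = (2 : ℝ) ^ (10 * l) := by
        rw [pow_mul]
        norm_num

/-- **The local law.** -/
theorem local_law (n C' : ℕ) {ε : ℝ} (hε : 0 < ε) (hε1 : ε ≤ 1) : ∃ K : ℕ, 1 ≤ K ∧
    ∀ (A : ∀ p : ℕ, (Fin n → ZMod p) → Prop) (P : Finset ℕ) (y H l m : ℕ), (∀ p ∈ P, p.Prime ∧ p ≤ y) →
    (∀ p ∈ P, K * rho A p ≤ 1) → (K : ℝ) ≤ ∑ p ∈ P, rho A p → ∑ p ∈ P, rho A p ≤ l → m ≤ C' * ∑ p ∈ P, rho A p → y ^ (K * l) ≤ H →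
    (∑ p ∈ P, rho A p) ^ m / (m.factorial : ℝ) * Real.exp (-((1 + ε) * ∑ p ∈ P, rho A p)) ≤
      EB H (fun c => if nb A P c = m then (1 : ℝ) else 0) ∧
    EB H (fun c => if nb A P c = m then (1 : ℝ) else 0) ≤
      (∑ p ∈ P, rho A p) ^ m / (m.factorial : ℝ) * Real.exp (-((1 - ε) * ∑ p ∈ P, rho A p)) := by
  obtain ⟨K0, hK0⟩ := exists_nat_gt ((8 + 8 * (C' : ℝ) ^ 2 + 4 * C') / ε + 4 * C' + 4)
  refine ⟨K0 + (21 + C' + n + 10), by omega, fun A P y H l m hP hd hμK hμl hm hH => ?_⟩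
  obtain ⟨K, hK⟩ : ∃ K, K = K0 + (21 + C' + n + 10) := ⟨_, rfl⟩
  rw [← hK] at hd hμK hH
  obtain ⟨μ, hμ⟩ : ∃ μ, μ = ∑ p ∈ P, rho A p := ⟨_, rfl⟩
  rw [← hμ] at hμK hμl hm ⊢
  have hC0 : (0 : ℝ) ≤ C' := Nat.cast_nonneg _
  have hK0K : (K0 : ℝ) ≤ K := by
    rw [hK]
    push_cast
    linarith [Nat.cast_nonneg (α := ℝ) n]
  have hKb : (8 + 8 * (C' : ℝ) ^ 2 + 4 * C') / ε + 4 * C' + 4 ≤ K := hK0.le.trans hK0K
  have hdiv0 : 0 ≤ (8 + 8 * (C' : ℝ) ^ 2 + 4 * C') / ε := by positivity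
  have hK4 : (4 : ℝ) ≤ K := by linarith
  have hKpos : (0 : ℝ) < K := by linarith
  have hμ4 : 4 ≤ μ := hK4.trans hμK
  have hμ0 : 0 < μ := by linarith
  have hKε : (8 + 8 * (C' : ℝ) ^ 2 + 4 * C') ≤ ε * K := by
    have h1 : (8 + 8 * (C' : ℝ) ^ 2 + 4 * C') / ε ≤ K := by linarith
    rw [div_le_iff₀ hε] at h1
    linarith
  have hεμ : 8 ≤ ε * μ := by
    have h1 : ε * K ≤ ε * μ := mul_le_mul_of_nonneg_left hμK hε.le
    have h2 : 0 ≤ 8 * (C' : ℝ) ^ 2 + 4 * C' := by positivity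
    linarith
  have hl1 : 1 ≤ l := by
    have h1 : (0 : ℝ) < l := by linarith
    exact_mod_cast h1
  have hl1' : (1 : ℝ) ≤ l := by exact_mod_cast hl1
  have hy2 : 2 ≤ y := by
    have hne : P.Nonempty := by
      rw [Finset.nonempty_iff_ne_empty]
      intro h0
      rw [h0, Finset.sum_empty] at hμ
      linarith
    obtain ⟨p, hp⟩ := hne
    exact (hP p hp).1.two_le.trans (hP p hp).2
  have hml : m ≤ C' * l := by
    have h1 : (m : ℝ) ≤ C' * l := hm.trans (mul_le_mul_of_nonneg_left hμl hC0)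
    exact_mod_cast h1
  -- the density bound
  obtain ⟨R, hR⟩ : ∃ R : ℝ, R = 1 / K := ⟨_, rfl⟩
  have hR0 : 0 ≤ R := by rw [hR]; positivity
  have hR2 : R ≤ 1 / 2 := by
    rw [hR]
    exact one_div_le_one_div_of_le (by norm_num) (by linarith)
  have hRK : R * K = 1 := by rw [hR]; field_simp
  have hρ : ∀ p ∈ P, 0 ≤ rho A p ∧ rho A p ≤ R := by
    intro p hp
    refine ⟨rho_nonneg A p, ?_⟩
    rw [hR, le_div_iff₀ hKpos, mul_comm]
    exact hd p hp
  -- the error
  have hKl : K * l = (K0 + n) * l + (10 * l) + (21 * l + C' * l) := by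
    rw [hK]
    ring
  have hH1 : 2 ^ n * y ^ (21 * l + m) * 2 ^ (10 * l) ≤ 2 * H + 1 := by
    have h1 : 2 ^ n ≤ y ^ ((K0 + n) * l) := by
      calc 2 ^ n ≤ y ^ n := Nat.pow_le_pow_left hy2 n
        _ ≤ y ^ ((K0 + n) * l) := Nat.pow_le_pow_right (by omega) (by nlinarith)
    have h2 : y ^ (21 * l + m) ≤ y ^ (21 * l + C' * l) := Nat.pow_le_pow_right (by omega) (by omega)
    have h3 : 2 ^ (10 * l) ≤ y ^ (10 * l) := Nat.pow_le_pow_left hy2 _
    calc 2 ^ n * y ^ (21 * l + m) * 2 ^ (10 * l) ≤ y ^ ((K0 + n) * l) * y ^ (21 * l + C' * l) * y ^ (10 * l) :=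
          Nat.mul_le_mul (Nat.mul_le_mul h1 h2) h3
      _ = y ^ (K * l) := by
          rw [hKl, ← pow_add, ← pow_add]
          congr 1
          ring
      _ ≤ 2 * H + 1 := by omega
  have hJ : 21 * l - 1 + 1 = 21 * l := by omega
  have hmain := law_close (by omega : 1 ≤ y) hP A m (21 * l - 1) H (by
    rw [hJ]
    have h1 : 1 ≤ 2 ^ (10 * l) := Nat.one_le_two_pow
    calc 2 ^ n * y ^ (21 * l + m) ≤ 2 ^ n * y ^ (21 * l + m) * 2 ^ (10 * l) := Nat.le_mul_of_pos_right _ (by omega)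
      _ ≤ 2 * H + 1 := hH1)
  rw [hJ, ← hμ] at hmain
  have hH0 : (0 : ℝ) < 2 * H + 1 := by positivity
  have hθ : 2 ^ n * (y : ℝ) ^ (21 * l + m) / (2 * H + 1) * Real.exp μ ≤ Real.exp (-(5 * l)) := by
    have h1 : (2 : ℝ) ^ n * (y : ℝ) ^ (21 * l + m) * 2 ^ (10 * l) ≤ 2 * H + 1 := by exact_mod_cast hH1
    have h2 : 2 ^ n * (y : ℝ) ^ (21 * l + m) / (2 * H + 1) ≤ Real.exp (-(6 * l)) := by
      rw [div_le_iff₀ hH0, Real.exp_neg, inv_mul_eq_div, le_div_iff₀ (Real.exp_pos _)]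
      exact (mul_le_mul_of_nonneg_left (two_pow_le l) (by positivity)).trans h1
    calc 2 ^ n * (y : ℝ) ^ (21 * l + m) / (2 * H + 1) * Real.exp μ ≤ Real.exp (-(6 * l)) * Real.exp l :=
          mul_le_mul h2 (Real.exp_le_exp.2 hμl) (Real.exp_pos _).le (Real.exp_pos _).le
      _ = Real.exp (-(5 * l)) := by
          rw [← Real.exp_add]
          congr 1
          ring
  have hpf := pow_fact_le hμ0.le hμl hl1
  have herr : 2 ^ n * (y : ℝ) ^ (21 * l + m) / (2 * H + 1) * Real.exp μ + 3 * (μ ^ (21 * l) / ((21 * l).factorial : ℝ)) ≤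
      Real.exp (-(4 * μ)) := by
    have h1 : Real.exp (-(5 * l)) ≤ Real.exp (-(4 * l)) * (1 / 2) := by
      have h2 : Real.exp (-(5 * (l : ℝ))) = Real.exp (-(4 * l)) * Real.exp (-(l : ℝ)) := by
        rw [← Real.exp_add]
        congr 1
        ring
      rw [h2]
      refine mul_le_mul_of_nonneg_left ?_ (Real.exp_pos _).le
      rw [Real.exp_neg, one_div]
      refine inv_anti₀ (by norm_num) ?_
      have := Real.add_one_le_exp (l : ℝ)
      linarith
    have h3 : 3 * Real.exp (-(42 * (l : ℝ))) ≤ Real.exp (-(4 * l)) * (1 / 2) := by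
      have h2 : Real.exp (-(42 * (l : ℝ))) = Real.exp (-(4 * l)) * Real.exp (-(38 * (l : ℝ))) := by
        rw [← Real.exp_add]
        congr 1
        ring
      rw [h2]
      have h4 : 3 * Real.exp (-(38 * (l : ℝ))) ≤ 1 / 2 := by
        have h5 : (6 : ℝ) ≤ Real.exp (38 * l) := by
          have := Real.add_one_le_exp (38 * (l : ℝ))
          linarith
        rw [Real.exp_neg]
        have h6 : (Real.exp (38 * (l : ℝ)))⁻¹ ≤ 6⁻¹ := inv_anti₀ (by norm_num) h5
        linarith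
      have := mul_le_mul_of_nonneg_left h4 (Real.exp_pos (-(4 * (l : ℝ)))).le
      linarith
    have h7 : Real.exp (-(4 * (l : ℝ))) ≤ Real.exp (-(4 * μ)) := Real.exp_le_exp.2 (by linarith)
    linarith
  have hpos : 0 ≤ μ ^ m / (m.factorial : ℝ) := by positivity
  have hclose : |EB H (fun c => if nb A P c = m then (1 : ℝ) else 0) - pb P (rho A) m| ≤
      μ ^ m / (m.factorial : ℝ) * Real.exp (-(4 * μ)) := hmain.trans (mul_le_mul_of_nonneg_left herr hpos)
  obtain ⟨hlow, hup⟩ := pb_bounds hρ hR0 hR2 m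
  rw [← hμ] at hlow hup
  have hmR : m * R ≤ ε / 4 * μ := by
    have h1 : (m : ℝ) * R ≤ C' * μ * R := mul_le_mul_of_nonneg_right hm hR0
    have h2 : C' * R ≤ ε / 4 := by
      have h3 : 4 * (C' : ℝ) ≤ ε * K := by
        have : 0 ≤ 8 * (C' : ℝ) ^ 2 := by positivity
        linarith
      have h4 : C' * R * K ≤ ε / 4 * K := by
        rw [mul_assoc, hRK]
        linarith
      exact le_of_mul_le_mul_right h4 hKpos
    calc (m : ℝ) * R ≤ C' * μ * R := h1
      _ = C' * R * μ := by ring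
      _ ≤ ε / 4 * μ := mul_le_mul_of_nonneg_right h2 hμ0.le
  have h2e : (2 : ℝ) ≤ Real.exp 1 := by
    have := Real.add_one_le_exp (1 : ℝ)
    linarith
  rw [abs_le] at hclose
  constructor
  · -- the lower bound
    have hCR : C' * R ≤ 1 / 4 := by
      have h4 : C' * R * K ≤ 1 / 4 * K := by
        rw [mul_assoc, hRK]
        linarith
      exact le_of_mul_le_mul_right h4 hKpos
    have h1 : μ * (1 - C' * R) ≤ max 0 (μ - m * R) := by
      refine le_trans ?_ (le_max_right _ _)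
      have : (m : ℝ) * R ≤ C' * μ * R := mul_le_mul_of_nonneg_right hm hR0
      nlinarith
    have h2 : 0 ≤ μ * (1 - C' * R) := mul_nonneg hμ0.le (by linarith)
    have h3 : μ ^ m * (1 - C' * R) ^ m ≤ (max 0 (μ - m * R)) ^ m := by
      rw [← mul_pow]
      exact pow_le_pow_left₀ h2 h1 m
    have h4 : Real.exp (-(C' * R * 2)) ≤ 1 - C' * R := by
      have := one_sub_ge (x := C' * R) (R := 1 / 2) (by positivity) (by linarith) le_rfl
      refine le_trans (le_of_eq ?_) this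
      congr 1
      ring
    have h5 : Real.exp (-(2 * (C' : ℝ) ^ 2 * R * μ)) ≤ (1 - C' * R) ^ m := by
      calc Real.exp (-(2 * (C' : ℝ) ^ 2 * R * μ)) ≤ Real.exp (m * (-(C' * R * 2))) := by
            rw [Real.exp_le_exp]
            have h6 : C' * R * 2 * m ≤ C' * R * 2 * (C' * μ) := mul_le_mul_of_nonneg_left hm (by positivity)
            nlinarith
        _ = Real.exp (-(C' * R * 2)) ^ m := Real.exp_nat_mul _ _
        _ ≤ (1 - C' * R) ^ m := pow_le_pow_left₀ (Real.exp_pos _).le h4 m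
    have hCR2 : 2 * (C' : ℝ) ^ 2 * R + 2 * R ≤ ε / 4 := by
      have h7 : (2 * (C' : ℝ) ^ 2 * R + 2 * R) * K ≤ ε / 4 * K := by
        have e : (2 * (C' : ℝ) ^ 2 * R + 2 * R) * K = (2 * (C' : ℝ) ^ 2 + 2) * (R * K) := by ring
        rw [e, hRK]
        linarith
      exact le_of_mul_le_mul_right h7 hKpos
    have h8 : μ ^ m / (m.factorial : ℝ) * Real.exp (-((1 + ε / 4) * μ)) ≤ pb P (rho A) m := by
      refine le_trans ?_ hlow
      have h9 : μ ^ m * Real.exp (-(2 * (C' : ℝ) ^ 2 * R * μ)) ≤ (max 0 (μ - m * R)) ^ m :=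
        (mul_le_mul_of_nonneg_left h5 (by positivity)).trans h3
      have hf : (0 : ℝ) < (m.factorial : ℝ) := by exact_mod_cast Nat.factorial_pos _
      calc μ ^ m / (m.factorial : ℝ) * Real.exp (-((1 + ε / 4) * μ)) ≤
          μ ^ m / (m.factorial : ℝ) * (Real.exp (-(2 * (C' : ℝ) ^ 2 * R * μ)) * Real.exp (-(μ * (1 + 2 * R)))) := by
            rw [← Real.exp_add]
            refine mul_le_mul_of_nonneg_left (Real.exp_le_exp.2 ?_) hpos
            have := mul_le_mul_of_nonneg_right hCR2 hμ0.le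
            nlinarith
        _ = μ ^ m * Real.exp (-(2 * (C' : ℝ) ^ 2 * R * μ)) / (m.factorial : ℝ) * Real.exp (-(μ * (1 + 2 * R))) := by ring
        _ ≤ (max 0 (μ - m * R)) ^ m / (m.factorial : ℝ) * Real.exp (-(μ * (1 + 2 * R))) :=
            mul_le_mul_of_nonneg_right (div_le_div_of_nonneg_right h9 hf.le) (Real.exp_pos _).le
    have h10 : Real.exp (-((1 + ε) * μ)) + Real.exp (-(4 * μ)) ≤ Real.exp (-((1 + ε / 4) * μ)) := by
      have h11 : Real.exp (-(4 * μ)) ≤ Real.exp (-((1 + ε) * μ)) := by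
        rw [Real.exp_le_exp]
        nlinarith
      have h12 : 2 * Real.exp (-((1 + ε) * μ)) ≤ Real.exp (-((1 + ε / 4) * μ)) := by
        calc 2 * Real.exp (-((1 + ε) * μ)) ≤ Real.exp 1 * Real.exp (-((1 + ε) * μ)) :=
              mul_le_mul_of_nonneg_right h2e (Real.exp_pos _).le
          _ = Real.exp (1 + -((1 + ε) * μ)) := (Real.exp_add _ _).symm
          _ ≤ Real.exp (-((1 + ε / 4) * μ)) := by
              rw [Real.exp_le_exp]
              nlinarith
      linarith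
    have h13 := mul_le_mul_of_nonneg_left h10 hpos
    rw [mul_add] at h13
    linarith [hclose.1]
  · -- the upper bound
    have h1 : pb P (rho A) m ≤ μ ^ m / (m.factorial : ℝ) * Real.exp (-((1 - ε / 4) * μ)) := by
      refine hup.trans (mul_le_mul_of_nonneg_left (Real.exp_le_exp.2 ?_) hpos)
      linarith
    have h10 : Real.exp (-((1 - ε / 4) * μ)) + Real.exp (-(4 * μ)) ≤ Real.exp (-((1 - ε) * μ)) := by
      have h11 : Real.exp (-(4 * μ)) ≤ Real.exp (-((1 - ε / 4) * μ)) := by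
        rw [Real.exp_le_exp]
        nlinarith
      have h12 : 2 * Real.exp (-((1 - ε / 4) * μ)) ≤ Real.exp (-((1 - ε) * μ)) := by
        calc 2 * Real.exp (-((1 - ε / 4) * μ)) ≤ Real.exp 1 * Real.exp (-((1 - ε / 4) * μ)) :=
              mul_le_mul_of_nonneg_right h2e (Real.exp_pos _).le
          _ = Real.exp (1 + -((1 - ε / 4) * μ)) := (Real.exp_add _ _).symm
          _ ≤ Real.exp (-((1 - ε) * μ)) := by
              rw [Real.exp_le_exp]
              nlinarith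
      linarith
    have h13 := mul_le_mul_of_nonneg_left h10 hpos
    rw [mul_add] at h13
    linarith [hclose.2]

end Pool.Agent.U62.LT
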