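import Pool.Agent.U62.LT.Rate

/-!
# Large deviations of the number of the events
-/

set_option autoImplicit false
set_option linter.unusedSectionVars false

namespace Pool.Agent.U62.LT

open Finset Filter Topology Pool.Agent.X280.BP
open Pool.Agent.Y722.HS (EM EB red)
open Pool.Agent.U62.RB (prop dens Per ev ev_red pr_ev prop_eq)

variable {n : ℕ}

theorem log_fact (m : ℕ) : Real.log (((m + 1).factorial : ℕ) : ℝ) ≤ ((m : ℝ) + 2) * Real.log ((m : ℝ) + 1) - m := by
  induction m with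
  | zero => simp
  | succ m ih =>
    have hm1 : (0 : ℝ) < (m : ℝ) + 1 := by positivity
    have hm2 : (0 : ℝ) < (m : ℝ) + 2 := by positivity
    have hf : (((m + 1 + 1).factorial : ℕ) : ℝ) = ((m : ℝ) + 2) * (((m + 1).factorial : ℕ) : ℝ) := by
      rw [Nat.factorial_succ (m + 1)]
      push_cast
      ring
    have hf0 : (0 : ℝ) < (((m + 1).factorial : ℕ) : ℝ) := by exact_mod_cast Nat.factorial_pos _
    rw [hf, Real.log_mul hm2.ne' hf0.ne']
    have h1 : Real.log (((m : ℝ) + 1) / (m + 2)) ≤ ((m : ℝ) + 1) / (m + 2) - 1 := Real.log_le_sub_one_of_pos (by positivity)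
    rw [Real.log_div hm1.ne' hm2.ne'] at h1
    have h2 : ((m : ℝ) + 1) / (m + 2) - 1 = -(1 / (m + 2)) := by
      field_simp
      ring
    rw [h2] at h1
    have h3 : ((m : ℝ) + 2) * (Real.log ((m : ℝ) + 1) - Real.log ((m : ℝ) + 2)) ≤ -1 := by
      have h4 := mul_le_mul_of_nonneg_left h1 hm2.le
      refine h4.trans (le_of_eq ?_)
      field_simp
    push_cast
    have e1 : ((m : ℝ) + 1 + 1) = m + 2 := by ring
    rw [e1]
    nlinarith

theorem weight_ge {μ : ℝ} (hμ : 0 < μ) (m : ℕ) :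
    Real.exp (-(μ * ((m : ℝ) / μ * Real.log ((m : ℝ) / μ) - (m : ℝ) / μ)) - (1 + Real.log ((m : ℝ) + 1))) ≤
      μ ^ m / (m.factorial : ℝ) := by
  cases m with
  | zero =>
    simp
  | succ m =>
    have hf0 : (0 : ℝ) < (((m + 1).factorial : ℕ) : ℝ) := by exact_mod_cast Nat.factorial_pos _
    have hm1 : (0 : ℝ) < (m : ℝ) + 1 := by positivity
    have h1 : μ ^ (m + 1) / (((m + 1).factorial : ℕ) : ℝ) =
        Real.exp (((m : ℝ) + 1) * Real.log μ - Real.log (((m + 1).factorial : ℕ) : ℝ)) := by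
      rw [Real.exp_sub, Real.exp_log hf0]
      congr 1
      rw [← Real.rpow_natCast, Real.rpow_def_of_pos hμ]
      push_cast
      ring_nf
    rw [h1, Real.exp_le_exp]
    have h2 := log_fact m
    push_cast
    rw [Real.log_div hm1.ne' hμ.ne']
    have h3 : μ * (((m : ℝ) + 1) / μ * (Real.log ((m : ℝ) + 1) - Real.log μ) - ((m : ℝ) + 1) / μ) =
        ((m : ℝ) + 1) * (Real.log ((m : ℝ) + 1) - Real.log μ) - ((m : ℝ) + 1) := by
      field_simp
    rw [h3]
    have h4 : Real.log ((m : ℝ) + 1) ≤ Real.log ((m : ℝ) + 1 + 1) := Real.log_le_log hm1 (by linarith)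
    nlinarith

theorem weight_low (t : ℝ) (ht : 0 ≤ t) {ε : ℝ} (hε : 0 < ε) : ∃ K : ℕ, ∀ (μ : ℝ) (m : ℕ), (K : ℝ) ≤ μ → |(m : ℝ) - t * μ| ≤ 1 →
    Real.exp (-((t * Real.log t - t + ε) * μ)) ≤ μ ^ m / (m.factorial : ℝ) := by
  have hc : Continuous fun x : ℝ => x * Real.log x - x := Real.continuous_mul_log.sub continuous_id
  obtain ⟨δ, hδ, hc2⟩ := Metric.continuous_iff.1 hc t (ε / 2) (by positivity)
  obtain ⟨K, hK⟩ := exists_nat_gt (1 + 1 / δ + ((1 + 2 * √(t + 3)) * (2 / ε)) ^ 2)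
  refine ⟨K, fun μ m hμK hm => ?_⟩
  have hδ' : 0 < 1 / δ := by positivity
  have hsq : 0 ≤ ((1 + 2 * √(t + 3)) * (2 / ε)) ^ 2 := sq_nonneg _
  have hμ1 : 1 ≤ μ := by linarith
  have hμ0 : 0 < μ := by linarith
  refine le_trans (Real.exp_le_exp.2 ?_) (weight_ge hμ0 m)
  obtain ⟨τ, hτ⟩ : ∃ τ, τ = (m : ℝ) / μ := ⟨_, rfl⟩
  rw [← hτ]
  have h1 : |τ - t| < δ := by
    have e : τ - t = ((m : ℝ) - t * μ) / μ := by
      rw [hτ]
      field_simp
    rw [e, abs_div, abs_of_pos hμ0, div_lt_iff₀ hμ0]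
    have h2 : 1 / δ < μ := by linarith
    rw [div_lt_iff₀ hδ] at h2
    linarith
  have h2 := hc2 τ h1
  rw [Real.dist_eq, abs_lt] at h2
  have h3 : 1 + Real.log ((m : ℝ) + 1) ≤ ε / 2 * μ := by
    have hm1 : (0 : ℝ) < (m : ℝ) + 1 := by positivity
    have h4 : Real.log ((m : ℝ) + 1) ≤ 2 * √((m : ℝ) + 1) := by
      have h5 := Real.log_le_sub_one_of_pos (Real.sqrt_pos.2 hm1)
      rw [Real.log_sqrt hm1.le] at h5
      linarith
    have h6 : (m : ℝ) + 1 ≤ (t + 3) * μ := by
      have := (abs_le.1 hm).2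
      nlinarith
    have h7 : √((m : ℝ) + 1) ≤ √(t + 3) * √μ := by
      rw [← Real.sqrt_mul (by linarith)]
      exact Real.sqrt_le_sqrt h6
    have h8 : 1 ≤ √μ := by
      rw [← Real.sqrt_one]
      exact Real.sqrt_le_sqrt hμ1
    have h9 : (1 + 2 * √(t + 3)) * (2 / ε) ≤ √μ := by
      apply Real.le_sqrt_of_sq_le
      linarith
    have h10 : (1 + 2 * √(t + 3)) ≤ ε / 2 * √μ := by
      have := mul_le_mul_of_nonneg_left h9 (by positivity : 0 ≤ ε / 2)
      have e : ε / 2 * ((1 + 2 * √(t + 3)) * (2 / ε)) = 1 + 2 * √(t + 3) := by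
        field_simp
      linarith
    calc 1 + Real.log ((m : ℝ) + 1) ≤ √μ + 2 * (√(t + 3) * √μ) := by linarith
      _ = (1 + 2 * √(t + 3)) * √μ := by ring
      _ ≤ ε / 2 * √μ * √μ := mul_le_mul_of_nonneg_right h10 (by linarith)
      _ = ε / 2 * μ := by rw [mul_assoc, Real.mul_self_sqrt hμ0.le]
  have h4 : μ * (τ * Real.log τ - τ) ≤ μ * (t * Real.log t - t + ε / 2) := mul_le_mul_of_nonneg_left (by linarith [h2.2]) hμ0.le
  nlinarith

open Classical in
/-- **Large deviations.** -/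
theorem tails (n : ℕ) (t : ℝ) (ht : 0 ≤ t) {ε : ℝ} (hε : 0 < ε) : ∃ K : ℕ,
    ∀ (A : ∀ p : ℕ, (Fin n → ZMod p) → Prop) (P : Finset ℕ) (y H l : ℕ), (∀ p ∈ P, p.Prime ∧ p ≤ y) →
    (∀ p ∈ P, K * rho A p ≤ 1) → (K : ℝ) ≤ ∑ p ∈ P, rho A p → ∑ p ∈ P, rho A p ≤ l → y ^ (K * l) ≤ H →
    (1 ≤ t →
      Real.exp (-((t * Real.log t - t + 1 + ε) * ∑ p ∈ P, rho A p)) ≤
        EB H (fun c => if t * ∑ p ∈ P, rho A p ≤ (nb A P c : ℝ) then (1 : ℝ) else 0) ∧
      EB H (fun c => if t * ∑ p ∈ P, rho A p ≤ (nb A P c : ℝ) then (1 : ℝ) else 0) ≤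
        Real.exp (-((t * Real.log t - t + 1 - ε) * ∑ p ∈ P, rho A p))) ∧
    (t ≤ 1 →
      Real.exp (-((t * Real.log t - t + 1 + ε) * ∑ p ∈ P, rho A p)) ≤
        EB H (fun c => if (nb A P c : ℝ) ≤ t * ∑ p ∈ P, rho A p then (1 : ℝ) else 0) ∧
      EB H (fun c => if (nb A P c : ℝ) ≤ t * ∑ p ∈ P, rho A p then (1 : ℝ) else 0) ≤
        Real.exp (-((t * Real.log t - t + 1 - ε) * ∑ p ∈ P, rho A p))) := by
  obtain ⟨C', hC'⟩ := exists_nat_gt (t + 1)
  obtain ⟨ε1, hε1⟩ : ∃ ε1, ε1 = min (ε / 2) 1 := ⟨_, rfl⟩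
  have hε10 : 0 < ε1 := by rw [hε1]; exact lt_min (by positivity) one_pos
  have hε11 : ε1 ≤ 1 := by rw [hε1]; exact min_le_right _ _
  have hε12 : ε1 ≤ ε / 2 := by rw [hε1]; exact min_le_left _ _
  obtain ⟨K1, hK11, hK1⟩ := local_law n C' hε10 hε11
  obtain ⟨K2, hK2⟩ := weight_low t ht (ε := ε / 2) (by positivity)
  obtain ⟨K3, hK3⟩ := exists_nat_gt (1 / ε)
  obtain ⟨K, hKdef⟩ : ∃ K, K = K1 + K2 + K3 + (C' + n) := ⟨_, rfl⟩
  refine ⟨K, fun A P y H l hP hd hμK hμl hH => ?_⟩
  have hρ : ∀ p ∈ P, 0 ≤ rho A p := fun p _ => rho_nonneg A p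
  obtain ⟨μ, hμ⟩ : ∃ μ, μ = ∑ p ∈ P, rho A p := ⟨_, rfl⟩
  have c1 : (K1 : ℝ) ≤ K := by rw [hKdef]; push_cast; linarith [Nat.cast_nonneg (α := ℝ) K2, Nat.cast_nonneg (α := ℝ) K3, Nat.cast_nonneg (α := ℝ) C', Nat.cast_nonneg (α := ℝ) n]
  have c2 : (K2 : ℝ) ≤ K := by rw [hKdef]; push_cast; linarith [Nat.cast_nonneg (α := ℝ) K1, Nat.cast_nonneg (α := ℝ) K3, Nat.cast_nonneg (α := ℝ) C', Nat.cast_nonneg (α := ℝ) n]
  have c3 : (K3 : ℝ) ≤ K := by rw [hKdef]; push_cast; linarith [Nat.cast_nonneg (α := ℝ) K1, Nat.cast_nonneg (α := ℝ) K2, Nat.cast_nonneg (α := ℝ) C', Nat.cast_nonneg (α := ℝ) n]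
  have hK1' : (1 : ℝ) ≤ K1 := by exact_mod_cast hK11
  rw [← hμ] at hμK hμl ⊢
  have hμ1 : 1 ≤ μ := by linarith
  have hμ0 : 0 < μ := by linarith
  have hl1 : 1 ≤ l := by
    have h1 : (0 : ℝ) < l := by linarith
    exact_mod_cast h1
  have hy2 : 2 ≤ y := by
    have hne : P.Nonempty := by
      rw [Finset.nonempty_iff_ne_empty]
      intro h0
      rw [h0, Finset.sum_empty] at hμ
      linarith
    obtain ⟨p, hp⟩ := hne
    exact (hP p hp).1.two_le.trans (hP p hp).2
  have hd1 : ∀ p ∈ P, K1 * rho A p ≤ 1 := fun p hp =>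
    (mul_le_mul_of_nonneg_right c1 (hρ p hp)).trans (hd p hp)
  have hH1 : y ^ (K1 * l) ≤ H := (Nat.pow_le_pow_right (by omega) (Nat.mul_le_mul_right l (by omega))).trans hH
  have hloc := fun (m : ℕ) (hm : (m : ℝ) ≤ C' * μ) => hK1 A P y H l m hP hd1 (hμ ▸ c1.trans hμK) (hμ ▸ hμl) (hμ ▸ hm) hH1
  simp only [← hμ] at hloc
  have hlowm : ∀ m : ℕ, |(m : ℝ) - t * μ| ≤ 1 → Real.exp (-((t * Real.log t - t + 1 + ε) * μ)) ≤
      EB H (fun c => if nb A P c = m then (1 : ℝ) else 0) := by
    intro m hm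
    have hm1 : (m : ℝ) ≤ C' * μ := by
      have := (abs_le.1 hm).2
      nlinarith
    have h1 := (hloc m hm1).1
    have h2 := hK2 μ m (c2.trans hμK) hm
    refine le_trans ?_ h1
    calc Real.exp (-((t * Real.log t - t + 1 + ε) * μ)) ≤
        Real.exp (-((t * Real.log t - t + ε / 2) * μ)) * Real.exp (-((1 + ε1) * μ)) := by
          rw [← Real.exp_add, Real.exp_le_exp]
          nlinarith
      _ ≤ μ ^ m / (m.factorial : ℝ) * Real.exp (-((1 + ε1) * μ)) := mul_le_mul_of_nonneg_right h2 (Real.exp_pos _).le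
  constructor
  · intro ht1
    obtain ⟨m, hm⟩ : ∃ m, m = ⌈t * μ⌉₊ := ⟨_, rfl⟩
    have hmt : t * μ ≤ m := by rw [hm]; exact Nat.le_ceil _
    have hmt1 : (m : ℝ) < t * μ + 1 := by rw [hm]; exact Nat.ceil_lt_add_one (by positivity)
    constructor
    · refine (hlowm m (by rw [abs_le]; constructor <;> linarith)).trans (EB_mono H _ _ fun c => ?_)
      by_cases h : nb A P c = m
      · rw [if_pos h, h, if_pos hmt]
      · rw [if_neg h]
        split_ifs <;> norm_num
    · have hg : ∀ N : ℕ, (if t * μ ≤ (N : ℝ) then (1 : ℝ) else 0) ≤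
          1 / t ^ m * ∑ k ∈ range (m + 1), (t - 1) ^ k * ((N.choose k : ℕ) : ℝ) := by
        intro N
        have ht0 : 0 < t ^ m := by positivity
        have hsum0 : 0 ≤ ∑ k ∈ range (m + 1), (t - 1) ^ k * ((N.choose k : ℕ) : ℝ) :=
          Finset.sum_nonneg fun k _ => mul_nonneg (pow_nonneg (by linarith) _) (Nat.cast_nonneg _)
        split_ifs with h
        · have hmN : m ≤ N := by rw [hm]; exact Nat.ceil_le.2 h
          have h1 : t ^ m ≤ ∑ k ∈ range (m + 1), (t - 1) ^ k * ((N.choose k : ℕ) : ℝ) := by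
            calc t ^ m = ((t - 1) + 1) ^ m := by congr 1; ring
              _ = ∑ k ∈ range (m + 1), (t - 1) ^ k * 1 ^ (m - k) * ((m.choose k : ℕ) : ℝ) := add_pow _ _ _
              _ ≤ ∑ k ∈ range (m + 1), (t - 1) ^ k * ((N.choose k : ℕ) : ℝ) := Finset.sum_le_sum fun k _ => by
                  rw [one_pow, mul_one]
                  refine mul_le_mul_of_nonneg_left ?_ (pow_nonneg (by linarith) _)
                  exact_mod_cast Nat.choose_le_choose k hmN
          rw [one_div, ← div_eq_inv_mul, le_div_iff₀ ht0, one_mul]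
          exact h1
        · positivity
      have h1 := EB_mono H _ _ fun c => hg (nb A P c)
      rw [EB_mul_left, EB_sum] at h1
      simp only [EB_mul_left] at h1
      refine h1.trans ?_
      have hml : m ≤ C' * l := by
        have h2 : (m : ℝ) ≤ C' * l := by
          have h3 : (m : ℝ) ≤ C' * μ := by nlinarith
          exact h3.trans (mul_le_mul_of_nonneg_left hμl (Nat.cast_nonneg _))
        exact_mod_cast h2
      have hF : ∀ k ∈ range (m + 1), EB H (fun c => (((nb A P c).choose k : ℕ) : ℝ)) ≤ 2 * (μ ^ k / (k.factorial : ℝ)) := by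
        intro k hk
        have hkm : k ≤ m := by have := Finset.mem_range.1 hk; omega
        have hyk : 2 ^ n * y ^ k ≤ 2 * H + 1 := by
          calc 2 ^ n * y ^ k ≤ y ^ (n * l) * y ^ (C' * l) := Nat.mul_le_mul
                ((Nat.pow_le_pow_left hy2 n).trans (Nat.pow_le_pow_right (by omega) (Nat.le_mul_of_pos_right n (by omega))))
                (Nat.pow_le_pow_right (by omega) (hkm.trans hml))
            _ = y ^ ((C' + n) * l) := by
                rw [← pow_add]
                congr 1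
                ring
            _ ≤ y ^ (K * l) := Nat.pow_le_pow_right (by omega) (Nat.mul_le_mul_right l (by omega))
            _ ≤ 2 * H + 1 := by omega
        have h2n : 1 ≤ 2 ^ n := Nat.one_le_two_pow
        have h2 := F_close hP A k H ((Nat.le_mul_of_pos_left _ (by omega)).trans hyk)
        have h3 : 2 ^ n * ((y : ℝ) ^ k / (2 * H + 1)) ≤ 1 := by
          rw [← mul_div_assoc, div_le_one (by positivity)]
          exact_mod_cast hyk
        have h4 := (abs_le.1 h2).2
        have h5 := es_nonneg P hρ k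
        have h6 := es_le P hρ k
        rw [← hμ] at h6
        have h7 := mul_le_mul_of_nonneg_right h3 h5
        linarith
      have h2 : ∑ k ∈ range (m + 1), (t - 1) ^ k * EB H (fun c => (((nb A P c).choose k : ℕ) : ℝ)) ≤ 2 * Real.exp ((t - 1) * μ) := by
        calc ∑ k ∈ range (m + 1), (t - 1) ^ k * EB H (fun c => (((nb A P c).choose k : ℕ) : ℝ)) ≤
            ∑ k ∈ range (m + 1), 2 * (((t - 1) * μ) ^ k / (k.factorial : ℝ)) := Finset.sum_le_sum fun k hk => by
              have h3 := mul_le_mul_of_nonneg_left (hF k hk) (pow_nonneg (by linarith : 0 ≤ t - 1) k)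
              refine h3.trans (le_of_eq ?_)
              rw [mul_pow]
              ring
          _ = 2 * ∑ k ∈ range (m + 1), ((t - 1) * μ) ^ k / (k.factorial : ℝ) := (Finset.mul_sum _ _ _).symm
          _ ≤ 2 * Real.exp ((t - 1) * μ) :=
              mul_le_mul_of_nonneg_left (Real.sum_le_exp_of_nonneg (mul_nonneg (by linarith) hμ0.le) _) (by norm_num)
      have htm : Real.exp (t * μ * Real.log t) ≤ t ^ m := by
        have h3 : t ^ m = Real.exp (m * Real.log t) := by
          rw [Real.exp_nat_mul, Real.exp_log (by linarith)]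
        rw [h3, Real.exp_le_exp]
        exact mul_le_mul_of_nonneg_right hmt (Real.log_nonneg ht1)
      have h2e : (2 : ℝ) ≤ Real.exp (ε * μ) := by
        have h3 := Real.add_one_le_exp (ε * μ)
        have h4 : 1 ≤ ε * μ := by
          have h5 : 1 / ε ≤ μ := by linarith
          rw [div_le_iff₀ hε] at h5
          linarith
        linarith
      calc 1 / t ^ m * ∑ k ∈ range (m + 1), (t - 1) ^ k * EB H (fun c => (((nb A P c).choose k : ℕ) : ℝ)) ≤
          1 / t ^ m * (2 * Real.exp ((t - 1) * μ)) := mul_le_mul_of_nonneg_left h2 (by positivity)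
        _ ≤ 1 / Real.exp (t * μ * Real.log t) * (Real.exp (ε * μ) * Real.exp ((t - 1) * μ)) :=
            mul_le_mul (one_div_le_one_div_of_le (Real.exp_pos _) htm)
              (mul_le_mul_of_nonneg_right h2e (Real.exp_pos _).le) (by positivity) (by positivity)
        _ = Real.exp (-((t * Real.log t - t + 1 - ε) * μ)) := by
            rw [one_div, ← Real.exp_neg, ← Real.exp_add, ← Real.exp_add]
            congr 1
            ring
  · intro ht1
    obtain ⟨m, hm⟩ : ∃ m, m = ⌊t * μ⌋₊ := ⟨_, rfl⟩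
    have htμ : 0 ≤ t * μ := by positivity
    have hmt : (m : ℝ) ≤ t * μ := by rw [hm]; exact Nat.floor_le htμ
    have hmt1 : t * μ < m + 1 := by rw [hm]; exact Nat.lt_floor_add_one _
    constructor
    · refine (hlowm m (by rw [abs_le]; constructor <;> linarith)).trans (EB_mono H _ _ fun c => ?_)
      by_cases h : nb A P c = m
      · rw [if_pos h, h, if_pos hmt]
      · rw [if_neg h]
        split_ifs <;> norm_num
    · have hg : ∀ N : ℕ, (if (N : ℝ) ≤ t * μ then (1 : ℝ) else 0) ≤ ∑ k ∈ range (m + 1), if N = k then (1 : ℝ) else 0 := by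
        intro N
        split_ifs with h
        · have hNm : N ≤ m := by rw [hm]; exact Nat.le_floor h
          rw [Finset.sum_ite_eq, if_pos (Finset.mem_range.2 (by omega))]
        · exact Finset.sum_nonneg fun k _ => by split_ifs <;> norm_num
      have h1 := EB_mono H _ _ fun c => hg (nb A P c)
      rw [EB_sum] at h1
      refine h1.trans ?_
      have h2 : ∀ k ∈ range (m + 1), EB H (fun c => if nb A P c = k then (1 : ℝ) else 0) ≤
          (t * μ) ^ k / (k.factorial : ℝ) * (Real.exp (-(t * μ * Real.log t)) * Real.exp (-((1 - ε1) * μ))) := by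
        intro k hk
        have hkm : (k : ℝ) ≤ m := by
          have := Finset.mem_range.1 hk
          exact_mod_cast (by omega : k ≤ m)
        have hk1 : (k : ℝ) ≤ C' * μ := by nlinarith
        refine (hloc k hk1).2.trans ?_
        have h3 : μ ^ k ≤ (t * μ) ^ k * Real.exp (-(t * μ * Real.log t)) := by
          rcases ht.eq_or_lt with h0 | h0
          · have : k = 0 := by
              rw [← h0, zero_mul] at hmt
              have : (k : ℝ) ≤ 0 := hkm.trans hmt
              exact_mod_cast le_antisymm this (Nat.cast_nonneg _)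
            subst this
            rw [← h0]
            simp
          · have h4 : μ ^ k = (t * μ) ^ k * Real.exp (-(k * Real.log t)) := by
              rw [Real.exp_neg, Real.exp_nat_mul, Real.exp_log h0, mul_pow]
              field_simp
            rw [h4]
            refine mul_le_mul_of_nonneg_left (Real.exp_le_exp.2 ?_) (by positivity)
            have h5 : Real.log t ≤ 0 := Real.log_nonpos h0.le ht1
            nlinarith
        have hf : (0 : ℝ) < (k.factorial : ℝ) := by exact_mod_cast Nat.factorial_pos _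
        calc μ ^ k / (k.factorial : ℝ) * Real.exp (-((1 - ε1) * μ)) ≤
            (t * μ) ^ k * Real.exp (-(t * μ * Real.log t)) / (k.factorial : ℝ) * Real.exp (-((1 - ε1) * μ)) :=
              mul_le_mul_of_nonneg_right (div_le_div_of_nonneg_right h3 hf.le) (Real.exp_pos _).le
          _ = _ := by ring
      refine (Finset.sum_le_sum h2).trans ?_
      rw [← Finset.sum_mul]
      calc (∑ k ∈ range (m + 1), (t * μ) ^ k / (k.factorial : ℝ)) * (Real.exp (-(t * μ * Real.log t)) * Real.exp (-((1 - ε1) * μ))) ≤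
          Real.exp (t * μ) * (Real.exp (-(t * μ * Real.log t)) * Real.exp (-((1 - ε1) * μ))) :=
            mul_le_mul_of_nonneg_right (Real.sum_le_exp_of_nonneg htμ _) (by positivity)
        _ ≤ Real.exp (-((t * Real.log t - t + 1 - ε) * μ)) := by
            rw [← Real.exp_add, ← Real.exp_add, Real.exp_le_exp]
            nlinarith

end Pool.Agent.U62.LT
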